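import Pool.Agent.Q289.TS.Law

/-!
# The 1/2-Tsallis FTRL for two arms is a follow the perturbed leader algorithm

`c x = (1-x)^(-1/2) - x^(-1/2)` on `(0,1)`.  There is exactly one symmetric probability measure
`D` on the line such that the difference `r₂ - r₁` of two independent variables of law `D` has the
law of `c(U)`, `U` uniform on `(0,1)`; and `Pr[c(x) + r₁ ≥ r₂] = x` for all `x` in `(0,1)`.
-/

open MeasureTheory Set Filter Topology

namespace Pool.Agent.Results.MP_f86038_pr.TsallisPerturbation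

open Pool.Agent.Q289.TS

/-- The gradient map of the regulariser, `c(x) = (1-x)^(-1/2) - x^(-1/2)`. -/
noncomputable def c (x : ℝ) : ℝ := (1 - x) ^ (-(1 / 2) : ℝ) - x ^ (-(1 / 2) : ℝ)

/-- The law of `c(U)`, `U` uniform on `(0,1)`. -/
noncomputable def Dbar : Measure ℝ := (volume.restrict (Ioo (0 : ℝ) 1)).map c

/-- The law of `r₂ - r₁` for independent `r₁, r₂` of law `D`. -/
noncomputable def diffLaw (D : Measure ℝ) : Measure ℝ := (D.prod D).map fun p => p.2 - p.1

theorem c_eq {x : ℝ} (hx : x ∈ Ioo (0 : ℝ) 1) : c x = cc x := by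
  unfold c cc
  rw [Real.rpow_neg (by linarith [hx.2]), Real.rpow_neg hx.1.le, Real.sqrt_eq_rpow,
    Real.sqrt_eq_rpow, one_div ((1 - x) ^ _), one_div (x ^ _)]

theorem c_meas : Measurable c := by unfold c; fun_prop
theorem cc_meas : Measurable cc := by unfold cc; fun_prop

theorem Dbar_eq : Dbar = (volume.restrict (Ioo (0 : ℝ) 1)).map cc := by
  unfold Dbar
  refine Measure.map_congr ?_
  exact (ae_restrict_mem measurableSet_Ioo).mono fun x hx => c_eq hx

theorem Dbar_prob : IsProbabilityMeasure Dbar := by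
  have : IsProbabilityMeasure (volume.restrict (Ioo (0 : ℝ) 1)) := ⟨by simp⟩
  exact Measure.isProbabilityMeasure_map c_meas.aemeasurable

theorem charFun_Dbar (t : ℝ) : charFun Dbar t = (gg t : ℂ) := by
  rw [Dbar_eq, charFun_apply_real, integral_map cc_meas.aemeasurable (by fun_prop)]
  have h1 : ∀ x : ℝ, Complex.exp (t * (cc x : ℝ) * Complex.I) =
      ((Real.cos (t * cc x) : ℝ) : ℂ) + ((Real.sin (t * cc x) : ℝ) : ℂ) * Complex.I := by
    intro x
    rw [← Complex.ofReal_mul, Complex.exp_mul_I, ← Complex.ofReal_cos, ← Complex.ofReal_sin]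
  simp_rw [h1]
  have hm := cc_meas
  have i1 : IntegrableOn (fun x => Real.cos (t * cc x)) (Ioo (0 : ℝ) 1) :=
    Integrable.mono' (integrable_const 1) (by fun_prop)
      (Eventually.of_forall fun x => Real.abs_cos_le_one _)
  have i2 : IntegrableOn (fun x => Real.sin (t * cc x)) (Ioo (0 : ℝ) 1) :=
    Integrable.mono' (integrable_const 1) (by fun_prop)
      (Eventually.of_forall fun x => Real.abs_sin_le_one _)
  rw [integral_add i1.ofReal (i2.ofReal.mul_const _), integral_mul_const, integral_complex_ofReal,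
    integral_complex_ofReal, gg_law, sin_law]
  simp

theorem charFun_diff (D : Measure ℝ) [IsProbabilityMeasure D] (t : ℝ) :
    charFun (diffLaw D) t = charFun D (-t) * charFun D t := by
  unfold diffLaw
  rw [charFun_apply_real, integral_map (by fun_prop) (by fun_prop), charFun_apply_real,
    charFun_apply_real, ← integral_prod_mul]
  refine integral_congr_ae (Eventually.of_forall fun p => ?_)
  simp only
  rw [← Complex.exp_add]
  congr 1
  push_cast
  ring

theorem charFun_neg_map (D : Measure ℝ) (t : ℝ) :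
    charFun (D.map fun r => -r) t = charFun D (-t) := by
  rw [charFun_apply_real, integral_map (by fun_prop) (by fun_prop), charFun_apply_real]
  refine integral_congr_ae (Eventually.of_forall fun p => ?_)
  simp only
  congr 1
  push_cast
  ring

theorem gg_pos (t : ℝ) : 0 < gg t := by
  rcases lt_trichotomy t 0 with h | h | h
  · rw [← gg_even, gg_pos_eq (by linarith)]
    exact mul_pos (Real.exp_pos _) (q0_pos hww (by linarith))
  · rw [h, gg_zero]; norm_num
  · rw [gg_pos_eq h]
    exact mul_pos (Real.exp_pos _) (q0_pos hww h)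

theorem exists_D : ∃ D : Measure ℝ, IsProbabilityMeasure D ∧ ∀ t, charFun D t = (psi t : ℂ) := by
  refine inv_measure (ct_psi hww) psi_cont (fun t => ?_) psi_integrable psi_even ?_
  · rw [abs_of_nonneg (psi_nonneg t)]
    unfold psi
    exact Real.sqrt_le_iff.2 ⟨zero_le_one, by simpa using gg_le_one t⟩
  · unfold psi
    rw [gg_zero, Real.sqrt_one]

theorem diffLaw_prob (D : Measure ℝ) [IsProbabilityMeasure D] :
    IsProbabilityMeasure (diffLaw D) :=
  Measure.isProbabilityMeasure_map (by fun_prop)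

theorem charFun_unique {D : Measure ℝ} (hD : IsProbabilityMeasure D)
    (hs : D.map (fun r => -r) = D) (hd : diffLaw D = Dbar) (t : ℝ) :
    charFun D t = (psi t : ℂ) := by
  have h1 : ∀ t, charFun D (-t) = charFun D t := by
    intro t
    rw [← charFun_neg_map, hs]
  have h2 : ∀ t, charFun D t = ((charFun D t).re : ℂ) := by
    intro t
    have h3 : charFun D (-t) = (starRingEnd ℂ) (charFun D t) := charFun_neg t
    rw [h1] at h3
    exact (Complex.conj_eq_iff_re.1 h3.symm).symm
  have h3 : ∀ t, (charFun D t).re ^ 2 = gg t := by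
    intro t
    have h4 := charFun_diff D t
    rw [hd, charFun_Dbar, h1, h2] at h4
    have h5 : gg t = (charFun D t).re * (charFun D t).re := by exact_mod_cast h4
    rw [h5]; ring
  have hc : Continuous fun t => (charFun D t).re := Complex.continuous_re.comp continuous_charFun
  have h0 : (charFun D 0).re = 1 := by rw [charFun_zero]; simp
  have hpos : 0 < (charFun D t).re := by
    by_contra hneg
    have h6 : (0 : ℝ) ∈ (fun t => (charFun D t).re) '' univ := by
      have h7 := (isPreconnected_univ (α := ℝ)).image _ hc.continuousOn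
      have h8 := h7.ordConnected
      exact h8.out ⟨t, mem_univ _, rfl⟩ ⟨0, mem_univ _, rfl⟩ ⟨by linarith, by simp⟩
    obtain ⟨s, _, hs0⟩ := h6
    have h9 := h3 s
    simp only at hs0
    rw [hs0] at h9
    have := gg_pos s
    norm_num at h9
    linarith
  rw [h2 t]
  unfold psi
  rw [← h3 t, Real.sqrt_sq hpos.le]

theorem prob_eq {D : Measure ℝ} [IsProbabilityMeasure D] (hd : diffLaw D = Dbar) {x : ℝ}
    (hx : x ∈ Ioo (0 : ℝ) 1) : (D.prod D) {p : ℝ × ℝ | p.2 ≤ c x + p.1} = ENNReal.ofReal x := by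
  have h1 : (D.prod D) {p : ℝ × ℝ | p.2 ≤ c x + p.1} = diffLaw D (Iic (c x)) := by
    unfold diffLaw
    rw [Measure.map_apply (by fun_prop) measurableSet_Iic]
    congr 1
    ext p
    simp only [mem_preimage, mem_Iic]
    change p.2 ≤ c x + p.1 ↔ _
    constructor <;> intro h <;> linarith
  rw [h1, hd, Dbar_eq, Measure.map_apply cc_meas measurableSet_Iic,
    Measure.restrict_apply (cc_meas measurableSet_Iic)]
  have h2 : cc ⁻¹' Iic (c x) ∩ Ioo 0 1 = Ioc 0 x := by
    ext y
    simp only [mem_inter_iff, mem_preimage, mem_Iic, mem_Ioo, mem_Ioc]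
    rw [c_eq hx]
    constructor
    · rintro ⟨h3, h4⟩
      exact ⟨h4.1, (cc_mono.le_iff_le h4 hx).1 h3⟩
    · rintro ⟨h3, h4⟩
      have h5 : y ∈ Ioo (0 : ℝ) 1 := ⟨h3, h4.trans_lt hx.2⟩
      exact ⟨(cc_mono.le_iff_le h5 hx).2 h4, h5⟩
  rw [h2, Real.volume_Ioc, sub_zero]

/-- **There is exactly one symmetric law `D` whose i.i.d. perturbations reproduce the
`1/2`-Tsallis FTRL for two arms.** -/
theorem result :
    ∃ D : Measure ℝ, (IsProbabilityMeasure D ∧ D.map (fun r => -r) = D ∧
        (D.prod D).map (fun p => p.2 - p.1) =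
          (volume.restrict (Ioo (0 : ℝ) 1)).map
            (fun x => (1 - x) ^ (-(1 / 2) : ℝ) - x ^ (-(1 / 2) : ℝ))) ∧
      (∀ x ∈ Ioo (0 : ℝ) 1, (D.prod D)
        {p : ℝ × ℝ | p.2 ≤ ((1 - x) ^ (-(1 / 2) : ℝ) - x ^ (-(1 / 2) : ℝ)) + p.1} =
          ENNReal.ofReal x) ∧
      ∀ D' : Measure ℝ, IsProbabilityMeasure D' → D'.map (fun r => -r) = D' →
        (D'.prod D').map (fun p => p.2 - p.1) =
          (volume.restrict (Ioo (0 : ℝ) 1)).map
            (fun x => (1 - x) ^ (-(1 / 2) : ℝ) - x ^ (-(1 / 2) : ℝ)) → D' = D := by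
  obtain ⟨D, hD, hc⟩ := exists_D
  have hDp := hD
  have hs : D.map (fun r => -r) = D := by
    have : IsProbabilityMeasure (D.map fun r : ℝ => -r) :=
      Measure.isProbabilityMeasure_map (by fun_prop)
    refine Measure.ext_of_charFun ?_
    funext t
    rw [charFun_neg_map, hc, hc, psi_even]
  have hd : diffLaw D = Dbar := by
    have := diffLaw_prob D
    have := Dbar_prob
    refine Measure.ext_of_charFun ?_
    funext t
    rw [charFun_diff, charFun_Dbar, hc, hc, psi_even, ← Complex.ofReal_mul]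
    unfold psi
    rw [Real.mul_self_sqrt (gg_pos t).le]
  refine ⟨D, ⟨hD, hs, hd⟩, fun x hx => prob_eq hd hx, ?_⟩
  intro D' hD' hs' hd'
  refine Measure.ext_of_charFun ?_
  funext t
  rw [hc, charFun_unique hD' hs' hd']

end Pool.Agent.Results.MP_f86038_pr.TsallisPerturbation
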